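import Mathlib

/-!
# Quasigroups with `((yx)y)y = x` which are affine over abelian groups

Author: helper107.

We determine the orders of the quasigroups `x * y = φ x + ψ y + c` over finite abelian groups (`φ`, `ψ`
automorphisms, not assumed to commute) which satisfy `((y * x) * y) * y = x`: they are the positive integers `v` such
that every prime `p` which divides `v` exactly once is `3`, or `1` modulo `3`, or `x ^ 3 - x ^ 2 + 1` has a root modulo
`p`. The orders of the idempotent ones are the `v` in which the exponents of the primes modulo which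
`x ^ 3 - x ^ 2 + 1` has no root are divisible by `3`. So all these numbers are orders of (idempotent) quasigroups with
the identity.

Proof. The identity means `φ ^ 2 ψ = 1`, `φ ^ 3 + φ ψ + ψ = 0` and `φ ^ 2 c + φ c + c = 0`; hence
`φ ^ 5 + φ + 1 = 0`. If `p` divides `v` exactly once, the elements of order `p` form a cyclic group, on which `φ` is the
multiplication by a root of `x ^ 5 + x + 1 = (x ^ 2 + x + 1) (x ^ 3 - x ^ 2 + 1)` modulo `p`. Conversely the companion
matrices of the two factors give models of the orders `m ^ 2` and `m ^ 3` for every `m`, the roots modulo `p` give models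
of order `p`, and there are direct products. In the idempotent case `φ ^ 3 - φ ^ 2 + 1 = 0`; if the polynomial has no
root modulo `p`, it is irreducible modulo `p`, the elements of order `p` form a vector space over the field with `p ^ 3`
elements, and one uses induction with the subgroup `p A`.
-/

set_option autoImplicit false

namespace Pool.Agent.Results.MP_0d0fd2_co.AffineSpectrum

/-- There is an abelian group `A` of order `v` with automorphisms `φ`, `ψ` and an element `c` such that the operation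
`x * y = φ x + ψ y + c` satisfies `((y * x) * y) * y = x`. -/
def AffineModel (v : ℕ) : Prop :=
  ∃ (A : Type) (_ : AddCommGroup A) (_ : Finite A) (φ ψ : A ≃+ A) (c : A) (mul : A → A → A),
    Nat.card A = v ∧ (∀ x y, mul x y = φ x + ψ y + c) ∧ ∀ x y, mul (mul (mul y x) y) y = x

/-- There is a quasigroup of order `v` which satisfies `((y * x) * y) * y = x`. -/
def Model (v : ℕ) : Prop :=
  ∃ mul : Fin v → Fin v → Fin v, (∀ a, Function.Bijective (mul a)) ∧
    (∀ b, Function.Bijective fun x => mul x b) ∧ ∀ x y, mul (mul (mul y x) y) y = x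

/-- Every prime which divides `v` exactly once is `3`, or `1` modulo `3`, or `x ^ 3 - x ^ 2 + 1` has a root modulo
it. -/
def Good (v : ℕ) : Prop :=
  ∀ p : ℕ, p.Prime → p ∣ v → ¬ p ^ 2 ∣ v → p = 3 ∨ p % 3 = 1 ∨ ∃ a : ZMod p, a ^ 3 - a ^ 2 + 1 = 0

/-- There is an abelian group `A` of order `v` with automorphisms `φ`, `ψ` and an element `c` such that the operation
`x * y = φ x + ψ y + c` is idempotent and satisfies `((y * x) * y) * y = x`. -/
def IdempotentAffineModel (v : ℕ) : Prop :=
  ∃ (A : Type) (_ : AddCommGroup A) (_ : Finite A) (φ ψ : A ≃+ A) (c : A) (mul : A → A → A),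
    Nat.card A = v ∧ (∀ x y, mul x y = φ x + ψ y + c) ∧ (∀ x, mul x x = x) ∧ ∀ x y, mul (mul (mul y x) y) y = x

/-- There is an idempotent quasigroup of order `v` which satisfies `((y * x) * y) * y = x`. -/
def IdempotentModel (v : ℕ) : Prop :=
  ∃ mul : Fin v → Fin v → Fin v, (∀ a, Function.Bijective (mul a)) ∧
    (∀ b, Function.Bijective fun x => mul x b) ∧ (∀ x, mul x x = x) ∧ ∀ x y, mul (mul (mul y x) y) y = x

/-- The exponent in `v` of every prime modulo which `x ^ 3 - x ^ 2 + 1` has no root is divisible by `3`. -/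
def IdempotentGood (v : ℕ) : Prop :=
  ∀ p : ℕ, p.Prime → (∀ a : ZMod p, a ^ 3 - a ^ 2 + 1 ≠ 0) → 3 ∣ v.factorization p

theorem prod {a b : ℕ} (ha : AffineModel a) (hb : AffineModel b) : AffineModel (a * b) := by
  obtain ⟨A, _, _, φ, ψ, c, m, hA, hm, hE⟩ := ha
  obtain ⟨B, _, _, φ', ψ', c', m', hB, hm', hE'⟩ := hb
  refine ⟨A × B, inferInstance, inferInstance, φ.prodCongr φ', ψ.prodCongr ψ', (c, c'),
    fun x y => (m x.1 y.1, m' x.2 y.2), ?_, ?_, ?_⟩
  · rw [Nat.card_prod, hA, hB]
  · rintro ⟨x, x'⟩ ⟨y, y'⟩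
    exact Prod.ext (hm _ _) (hm' _ _)
  · rintro ⟨x, x'⟩ ⟨y, y'⟩
    simp [hE, hE']

theorem one : AffineModel 1 := by
  refine ⟨Unit, inferInstance, inferInstance, AddEquiv.refl _, AddEquiv.refl _, 0, fun _ _ => (), by simp, ?_, ?_⟩
  · intros; rfl
  · intros; rfl

theorem sq (m : ℕ) (hm : 0 < m) : AffineModel (m ^ 2) := by
  have : NeZero m := ⟨hm.ne'⟩
  let φ : (ZMod m × ZMod m) ≃+ (ZMod m × ZMod m) :=
    { toFun := fun x => (-x.2, x.1 - x.2)
      invFun := fun x => (x.2 - x.1, -x.1)
      left_inv := fun x => by ext <;> simp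
      right_inv := fun x => by ext <;> simp
      map_add' := fun x y => by ext <;> simp <;> ring }
  refine ⟨ZMod m × ZMod m, inferInstance, inferInstance, φ, φ, 0, fun x y => φ x + φ y + 0, ?_, fun _ _ => rfl, ?_⟩
  · rw [Nat.card_prod, Nat.card_zmod, pow_two]
  · intro x y
    have hφ : ∀ z, φ z = (-z.2, z.1 - z.2) := fun _ => rfl
    ext <;> simp [hφ] <;> ring

theorem cube (m : ℕ) (hm : 0 < m) : AffineModel (m ^ 3) := by
  have : NeZero m := ⟨hm.ne'⟩
  let φ : (ZMod m × ZMod m × ZMod m) ≃+ (ZMod m × ZMod m × ZMod m) :=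
    { toFun := fun x => (-x.2.2, x.1, x.2.1 + x.2.2)
      invFun := fun x => (x.2.1, x.2.2 + x.1, -x.1)
      left_inv := fun x => by ext <;> simp
      right_inv := fun x => by ext <;> simp
      map_add' := fun x y => by ext <;> simp <;> ring }
  let ψ : (ZMod m × ZMod m × ZMod m) ≃+ (ZMod m × ZMod m × ZMod m) :=
    { toFun := fun x => (x.1 + x.2.2, x.2.1 - x.1, -x.2.1)
      invFun := fun x => (-(x.2.1 + x.2.2), -x.2.2, x.1 + x.2.1 + x.2.2)
      left_inv := fun x => by ext <;> simp <;> ring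
      right_inv := fun x => by ext <;> simp <;> ring
      map_add' := fun x y => by ext <;> simp <;> ring }
  refine ⟨ZMod m × ZMod m × ZMod m, inferInstance, inferInstance, φ, ψ, 0, fun x y => φ x + ψ y + 0, ?_,
    fun _ _ => rfl, ?_⟩
  · rw [Nat.card_prod, Nat.card_prod, Nat.card_zmod]
    ring
  · intro x y
    have hφ : ∀ z, φ z = (-z.2.2, z.1, z.2.1 + z.2.2) := fun _ => rfl
    have hψ : ∀ z, ψ z = (z.1 + z.2.2, z.2.1 - z.1, -z.2.1) := fun _ => rfl
    ext <;> simp [hφ, hψ] <;> ring

theorem root_of {p : ℕ} [Fact p.Prime] (h : p = 3 ∨ p % 3 = 1 ∨ ∃ a : ZMod p, a ^ 3 - a ^ 2 + 1 = 0) :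
    ∃ a : ZMod p, a ^ 5 + a + 1 = 0 := by
  rcases h with h | h | ⟨a, ha⟩
  · subst h
    have h3 : ((3 : ℕ) : ZMod 3) = 0 := ZMod.natCast_self 3
    push_cast at h3
    exact ⟨1, by linear_combination h3⟩
  · have h3 : 3 ∣ Nat.card (ZMod p)ˣ := by
      rw [Nat.card_eq_fintype_card, ZMod.card_units p]
      have := (Fact.out : p.Prime).two_le
      omega
    have : Fact (Nat.Prime 3) := ⟨Nat.prime_three⟩
    obtain ⟨x, hx⟩ := exists_prime_orderOf_dvd_card' 3 h3
    have hx3 : x ^ 3 = 1 := by rw [← hx]; exact pow_orderOf_eq_one x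
    have hx1 : x ≠ 1 := by
      rintro rfl
      rw [orderOf_one] at hx
      omega
    have h1 : ((x : ZMod p) - 1) * ((x : ZMod p) ^ 2 + x + 1) = 0 := by
      have : ((x ^ 3 : (ZMod p)ˣ) : ZMod p) = 1 := by rw [hx3]; rfl
      rw [Units.val_pow_eq_pow_val] at this
      linear_combination this
    rcases mul_eq_zero.1 h1 with h1 | h1
    · exact absurd (Units.ext (by simpa [sub_eq_zero] using h1)) hx1
    · exact ⟨x, by linear_combination ((x : ZMod p) ^ 3 - (x : ZMod p) ^ 2 + 1) * h1⟩
  · exact ⟨a, by linear_combination (a ^ 2 + a + 1) * ha⟩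

theorem of_root {p : ℕ} [Fact p.Prime] {a : ZMod p} (h : a ^ 5 + a + 1 = 0) :
    p = 3 ∨ p % 3 = 1 ∨ ∃ a : ZMod p, a ^ 3 - a ^ 2 + 1 = 0 := by
  have h1 : (a ^ 2 + a + 1) * (a ^ 3 - a ^ 2 + 1) = 0 := by linear_combination h
  rcases mul_eq_zero.1 h1 with h1 | h1
  · by_cases ha : a = 1
    · left
      subst ha
      have h3 : ((3 : ℕ) : ZMod p) = 0 := by push_cast; linear_combination h1
      rw [ZMod.natCast_eq_zero_iff] at h3
      exact (Nat.prime_dvd_prime_iff_eq Fact.out Nat.prime_three).1 h3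
    · right; left
      have ha0 : a ≠ 0 := by
        rintro rfl
        simp at h1
      have h3 : a ^ 3 = 1 := by linear_combination (a - 1) * h1
      let u : (ZMod p)ˣ := Units.mk0 a ha0
      have hu3 : u ^ 3 = 1 := Units.ext (by simpa [u] using h3)
      have hu1 : u ≠ 1 := fun hu => ha (by simpa [u] using congrArg Units.val hu)
      have : Fact (Nat.Prime 3) := ⟨Nat.prime_three⟩
      have ho : orderOf u = 3 := orderOf_eq_prime hu3 hu1
      have hd : 3 ∣ Fintype.card (ZMod p)ˣ := ho ▸ orderOf_dvd_card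
      rw [ZMod.card_units p] at hd
      have := (Fact.out : p.Prime).two_le
      omega
  · exact Or.inr (Or.inr ⟨a, h1⟩)

theorem prime_model {p : ℕ} (hp : p.Prime) (h : p = 3 ∨ p % 3 = 1 ∨ ∃ a : ZMod p, a ^ 3 - a ^ 2 + 1 = 0) :
    AffineModel p := by
  have : Fact p.Prime := ⟨hp⟩
  obtain ⟨a, ha⟩ := root_of h
  have ha0 : a ≠ 0 := by
    rintro rfl
    simp at ha
  have hb0 : (a ^ 2)⁻¹ ≠ 0 := inv_ne_zero (pow_ne_zero 2 ha0)
  obtain ⟨b, hb⟩ : ∃ b, b = (a ^ 2)⁻¹ := ⟨_, rfl⟩
  rw [← hb] at hb0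
  have hab : a ^ 2 * b = 1 := by rw [hb]; exact mul_inv_cancel₀ (pow_ne_zero 2 ha0)
  refine ⟨ZMod p, inferInstance, inferInstance, AddAut.mulLeft (Units.mk0 a ha0), AddAut.mulLeft (Units.mk0 b hb0),
    0, fun x y => a * x + b * y, Nat.card_zmod p, ?_, ?_⟩
  · intro x y
    simp [Units.smul_def]
  · intro x y
    have h0 : a ^ 3 + a * b + b = 0 := by
      linear_combination b * ha - (a ^ 3 + a * b + b) * hab + (a * b + b) * hab
    linear_combination x * hab + y * h0

theorem prime_pow {p k : ℕ} (hp : p.Prime) (hk : 0 < k) (h : Good (p ^ k)) : AffineModel (p ^ k) := by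
  rcases Nat.lt_or_ge k 2 with h2 | h2
  · have : k = 1 := by omega
    subst this
    rw [pow_one] at h ⊢
    refine prime_model hp (h p hp dvd_rfl fun hd => ?_)
    have := Nat.le_of_dvd hp.pos hd
    nlinarith [hp.two_le]
  · rcases Nat.even_or_odd' k with ⟨j, rfl | rfl⟩
    · have := sq (p ^ j) (pow_pos hp.pos j)
      rwa [← pow_mul, mul_comm] at this
    · obtain ⟨i, rfl⟩ : ∃ i, j = i + 1 := ⟨j - 1, by omega⟩
      have := prod (sq (p ^ i) (pow_pos hp.pos i)) (cube p hp.pos)
      rw [← pow_mul, ← pow_add] at this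
      convert this using 2
      ring

theorem of_good : ∀ v : ℕ, 0 < v → Good v → AffineModel v := by
  intro v
  induction v using Nat.recOnPosPrimePosCoprime with
  | prime_pow p n hp hn => exact fun _ h => prime_pow hp hn h
  | zero => exact fun h => absurd h (lt_irrefl _)
  | one => exact fun _ _ => one
  | coprime a b ha hb hab iha ihb =>
    intro _ h
    refine prod (iha (by omega) fun p hp hd hd2 => ?_) (ihb (by omega) fun p hp hd hd2 => ?_)
    · refine h p hp (hd.mul_right b) fun h' => hd2 ?_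
      exact ((Nat.Coprime.coprime_dvd_left hd hab).pow_left 2).dvd_of_dvd_mul_right h'
    · refine h p hp (hd.mul_left a) fun h' => hd2 ?_
      exact ((Nat.Coprime.coprime_dvd_left hd hab.symm).pow_left 2).dvd_of_dvd_mul_left h'

theorem good_of {v : ℕ} (h : AffineModel v) : Good v := by
  obtain ⟨A, _, _, φ, ψ, c, m, hA, hm, hE⟩ := h
  intro p hp hd hd2
  have : Fact p.Prime := ⟨hp⟩
  have hE' : ∀ x y, φ (φ (φ y + ψ x + c) + ψ y + c) + ψ y + c = x := by
    intro x y
    have := hE x y
    rwa [hm, hm, hm] at this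
  have h00 : φ (φ c) + φ c + c = 0 := by simpa using hE' 0 0
  have hψ : ∀ x, φ (φ (ψ x)) = x := by
    intro x
    have h1 := hE' x 0
    simp only [map_zero, zero_add, map_add, add_zero] at h1
    calc φ (φ (ψ x)) = φ (φ (ψ x)) + φ (φ c) + φ c + c - (φ (φ c) + φ c + c) := by abel
      _ = x := by rw [h1, h00, sub_zero]
  have h5 : ∀ y, φ (φ (φ (φ (φ y)))) + φ y + y = 0 := by
    intro y
    have h1 := hE' 0 y
    simp only [map_zero, map_add, add_zero] at h1
    have h2 : φ (φ (φ y)) + φ (ψ y) + ψ y = 0 := by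
      calc φ (φ (φ y)) + φ (ψ y) + ψ y
          = φ (φ (φ y)) + φ (φ c) + φ (ψ y) + φ c + ψ y + c - (φ (φ c) + φ c + c) := by abel
        _ = 0 := by rw [h1, h00, sub_zero]
    have h3 := congrArg (fun z => φ (φ z)) h2
    simp only [map_add, map_zero, hψ] at h3
    exact h3
  -- an element of order `p`
  obtain ⟨x, hx⟩ := exists_prime_addOrderOf_dvd_card' (G := A) p (hA ▸ hd)
  -- `φ x` is a multiple of `x`
  obtain ⟨q, hq⟩ := hd
  have hpq : Nat.Coprime p q := by
    rw [hp.coprime_iff_not_dvd]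
    rintro ⟨t, rfl⟩
    exact hd2 ⟨t, by rw [hq]; ring⟩
  have hq0 : Nat.card (A ⧸ AddSubgroup.zmultiples x) = q := by
    have h1 := AddSubgroup.card_eq_card_quotient_mul_card_addSubgroup (AddSubgroup.zmultiples x)
    rw [hA, hq, Nat.card_zmultiples, hx, mul_comm] at h1
    exact (Nat.eq_of_mul_eq_mul_right hp.pos h1).symm
  have hmq : q • φ x ∈ AddSubgroup.zmultiples x := by
    rw [← QuotientAddGroup.eq_zero_iff, QuotientAddGroup.mk_nsmul, ← hq0]
    exact card_nsmul_eq_zero'
  have hmp : p • φ x ∈ AddSubgroup.zmultiples x := by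
    have : p • x = 0 := by rw [← hx]; exact addOrderOf_nsmul_eq_zero x
    rw [← map_nsmul, this, map_zero]
    exact zero_mem _
  have hmem : φ x ∈ AddSubgroup.zmultiples x := by
    have hb := Nat.gcd_eq_gcd_ab p q
    rw [hpq] at hb
    have : φ x = (Nat.gcdA p q) • (p • φ x) + (Nat.gcdB p q) • (q • φ x) := by
      rw [← natCast_zsmul (φ x) p, ← natCast_zsmul (φ x) q, smul_smul, smul_smul, ← add_smul,
        mul_comm (Nat.gcdA p q), mul_comm (Nat.gcdB p q), ← hb]
      simp
    rw [this]
    exact add_mem (zsmul_mem hmp _) (zsmul_mem hmq _)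
  obtain ⟨a, ha⟩ := AddSubgroup.mem_zmultiples_iff.1 hmem
  have hstep : ∀ k : ℤ, φ (k • x) = (k * a) • x := by
    intro k
    rw [map_zsmul, ← ha, smul_smul]
  have h6 : (a ^ 5 + a + 1) • x = 0 := by
    have h7 := h5 x
    have e1 : φ x = a • x := ha.symm
    rw [e1, hstep, hstep, hstep, hstep] at h7
    rw [← h7, add_smul, add_smul, one_smul]
    congr 3
    ring
  have h8 : (p : ℤ) ∣ a ^ 5 + a + 1 := by
    rw [← hx]
    exact addOrderOf_dvd_iff_zsmul_eq_zero.2 h6
  have h9 : ((a : ZMod p)) ^ 5 + a + 1 = 0 := by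
    have := (ZMod.intCast_zmod_eq_zero_iff_dvd (a ^ 5 + a + 1) p).2 h8
    exact_mod_cast this
  exact of_root h9

theorem model_of {v : ℕ} (h : AffineModel v) : Model v := by
  obtain ⟨A, _, _, φ, ψ, c, m, hA, hm, hE⟩ := h
  let e : A ≃ Fin v := Finite.equivFinOfCardEq hA
  refine ⟨fun i j => e (m (e.symm i) (e.symm j)), fun a => ?_, fun b => ?_, fun x y => ?_⟩
  · have : (fun j => e (m (e.symm a) (e.symm j))) =
        e ∘ (fun y => φ (e.symm a) + ψ y + c) ∘ e.symm := by
      funext j; simp [hm]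
    change Function.Bijective (fun j => e (m (e.symm a) (e.symm j)))
    rw [this]
    refine e.bijective.comp (Function.Bijective.comp ?_ e.symm.bijective)
    exact (Equiv.addRight c).bijective.comp ((Equiv.addLeft (φ (e.symm a))).bijective.comp ψ.bijective)
  · have : (fun i => e (m (e.symm i) (e.symm b))) =
        e ∘ (fun x => φ x + ψ (e.symm b) + c) ∘ e.symm := by
      funext j; simp [hm]
    rw [this]
    refine e.bijective.comp (Function.Bijective.comp ?_ e.symm.bijective)
    exact (Equiv.addRight c).bijective.comp ((Equiv.addRight (ψ (e.symm b))).bijective.comp φ.bijective)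
  · simp [hE]

open Polynomial in
theorem card_torsion {p : ℕ} [Fact p.Prime] (hr : ∀ a : ZMod p, a ^ 3 - a ^ 2 + 1 ≠ 0) (V : Type) [AddCommGroup V]
    [Finite V] (hV : ∀ x : V, p • x = 0) (φ : V →+ V) (hφ : ∀ x, φ (φ (φ x)) - φ (φ x) + x = 0) :
    ∃ d : ℕ, Nat.card V = p ^ (3 * d) := by
  let _ : Module (ZMod p) V := AddCommGroup.zmodModule (n := p) hV
  let Φ : Module.End (ZMod p) V := φ.toZModLinearMap p
  obtain ⟨f, hf⟩ : ∃ f : (ZMod p)[X], f = X ^ 3 - X ^ 2 + 1 := ⟨_, rfl⟩
  have hdeg : f.natDegree = 3 := by rw [hf]; compute_degree!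
  have hmon : f.Monic := by rw [hf]; monicity!
  have hirr : Irreducible f := by
    rw [Polynomial.irreducible_iff_roots_eq_zero_of_degree_le_three (by omega) (by omega)]
    rw [Multiset.eq_zero_iff_forall_notMem]
    intro a ha
    have h1 := (Polynomial.mem_roots hmon.ne_zero).1 ha
    rw [hf] at h1
    exact hr a (by simpa using h1)
  have hf0 : Polynomial.aeval (R := ZMod p) (A := Module.End (ZMod p) V) Φ f = 0 := by
    ext x
    have := hφ x
    rw [hf]
    simpa [pow_succ, Φ] using this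
  have : Fact (Irreducible f) := ⟨hirr⟩
  let g : AdjoinRoot f →+* Module.End (ZMod p) V :=
    Ideal.Quotient.lift (Ideal.span {f}) (aeval Φ : (ZMod p)[X] →ₐ[ZMod p] Module.End (ZMod p) V).toRingHom (by
      intro a ha
      obtain ⟨b, rfl⟩ := Ideal.mem_span_singleton.1 ha
      simp [hf0])
  let _ : Module (AdjoinRoot f) V := Module.compHom V g
  have : Module.Finite (ZMod p) (AdjoinRoot f) := (AdjoinRoot.powerBasis' hmon).finite
  have : Finite (AdjoinRoot f) := Module.finite_of_finite (ZMod p)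
  have h1 : Nat.card (AdjoinRoot f) = p ^ 3 := by
    rw [Module.natCard_eq_pow_finrank (K := ZMod p), Nat.card_zmod, (AdjoinRoot.powerBasis' hmon).finrank,
      AdjoinRoot.powerBasis'_dim, hdeg]
  refine ⟨Module.finrank (AdjoinRoot f) V, ?_⟩
  rw [Module.natCard_eq_pow_finrank (K := AdjoinRoot f), h1, pow_mul]

theorem three_dvd {p : ℕ} [Fact p.Prime] (hr : ∀ a : ZMod p, a ^ 3 - a ^ 2 + 1 ≠ 0) :
    ∀ (n : ℕ) (A : Type) [AddCommGroup A] [Finite A] (φ : A →+ A),
      (∀ x, φ (φ (φ x)) - φ (φ x) + x = 0) → Nat.card A = n → 3 ∣ n.factorization p := by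
  intro n
  induction n using Nat.strong_induction_on with
  | _ n ih =>
  intro A _ _ φ hφ hn
  have hp : p.Prime := Fact.out
  by_cases hd : p ∣ n
  · obtain ⟨T, hT⟩ : ∃ T : A →+ A, ∀ x, T x = p • x := ⟨nsmulAddMonoidHom p, fun x => rfl⟩
    have hK : ∀ x : T.ker, φ x ∈ T.ker := fun x => by
      have := x.2
      rw [AddMonoidHom.mem_ker, hT] at this ⊢
      rw [← map_nsmul, this, map_zero]
    have hR : ∀ x : T.range, φ x ∈ T.range := fun x => by
      obtain ⟨y, hy⟩ := x.2
      exact ⟨φ y, by rw [hT, ← map_nsmul, ← hT, hy]⟩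
    let φK : T.ker →+ T.ker := (φ.comp T.ker.subtype).codRestrict T.ker hK
    let φR : T.range →+ T.range := (φ.comp T.range.subtype).codRestrict T.range hR
    obtain ⟨d, hd1⟩ := card_torsion hr T.ker (fun x => Subtype.ext (by
        have := x.2
        rw [AddMonoidHom.mem_ker, hT] at this
        simpa using this)) φK (fun x => Subtype.ext (hφ x))
    have hcard : n = Nat.card T.range * Nat.card T.ker := by
      rw [← hn, AddSubgroup.card_eq_card_quotient_mul_card_addSubgroup T.ker,
        Nat.card_congr (QuotientAddGroup.quotientKerEquivRange T).toEquiv]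
    have hR0 : 0 < Nat.card T.range := Nat.card_pos
    obtain ⟨x, hx⟩ := exists_prime_addOrderOf_dvd_card' (G := A) p (hn ▸ hd)
    have hd0 : d ≠ 0 := by
      rintro rfl
      rw [mul_zero, pow_zero, Nat.card_eq_one_iff_unique] at hd1
      have hxK : x ∈ T.ker := by
        rw [AddMonoidHom.mem_ker, hT, ← hx]
        exact addOrderOf_nsmul_eq_zero x
      have h1 : (⟨x, hxK⟩ : T.ker) = 0 := hd1.1.elim _ _
      have h2 : x = 0 := congrArg Subtype.val h1
      rw [h2, addOrderOf_zero] at hx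
      exact hp.one_lt.ne hx
    have hlt : Nat.card T.range < n := by
      rw [hcard, hd1]
      have : 1 < p ^ (3 * d) := Nat.one_lt_pow (by omega) hp.one_lt
      nlinarith
    have h3 := ih _ hlt T.range φR (fun x => Subtype.ext (hφ x)) rfl
    rw [hcard, Nat.factorization_mul hR0.ne' (by rw [hd1]; exact (pow_pos hp.pos _).ne'), hd1,
      hp.factorization_pow]
    simp only [Finsupp.coe_add, Pi.add_apply, Finsupp.single_eq_same]
    exact dvd_add h3 (dvd_mul_right 3 d)
  · rw [Nat.factorization_eq_zero_of_not_dvd hd]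
    exact dvd_zero 3

theorem iprod {a b : ℕ} (ha : IdempotentAffineModel a) (hb : IdempotentAffineModel b) :
    IdempotentAffineModel (a * b) := by
  obtain ⟨A, _, _, φ, ψ, c, m, hA, hm, hi, hE⟩ := ha
  obtain ⟨B, _, _, φ', ψ', c', m', hB, hm', hi', hE'⟩ := hb
  refine ⟨A × B, inferInstance, inferInstance, φ.prodCongr φ', ψ.prodCongr ψ', (c, c'),
    fun x y => (m x.1 y.1, m' x.2 y.2), ?_, ?_, ?_, ?_⟩
  · rw [Nat.card_prod, hA, hB]
  · rintro ⟨x, x'⟩ ⟨y, y'⟩
    exact Prod.ext (hm _ _) (hm' _ _)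
  · rintro ⟨x, x'⟩
    simp [hi, hi']
  · rintro ⟨x, x'⟩ ⟨y, y'⟩
    simp [hE, hE']

theorem ione : IdempotentAffineModel 1 := by
  refine ⟨Unit, inferInstance, inferInstance, AddEquiv.refl _, AddEquiv.refl _, 0, fun _ _ => (), by simp, ?_, ?_, ?_⟩
  · intros; rfl
  · intros; rfl
  · intros; rfl

theorem ipow {a : ℕ} (h : IdempotentAffineModel a) (k : ℕ) : IdempotentAffineModel (a ^ k) := by
  induction k with
  | zero => rw [pow_zero]; exact ione
  | succ k ih => rw [pow_succ]; exact iprod ih h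

theorem icube (m : ℕ) (hm : 0 < m) : IdempotentAffineModel (m ^ 3) := by
  have : NeZero m := ⟨hm.ne'⟩
  let φ : (ZMod m × ZMod m × ZMod m) ≃+ (ZMod m × ZMod m × ZMod m) :=
    { toFun := fun x => (-x.2.2, x.1, x.2.1 + x.2.2)
      invFun := fun x => (x.2.1, x.2.2 + x.1, -x.1)
      left_inv := fun x => by ext <;> simp
      right_inv := fun x => by ext <;> simp
      map_add' := fun x y => by ext <;> simp <;> ring }
  let ψ : (ZMod m × ZMod m × ZMod m) ≃+ (ZMod m × ZMod m × ZMod m) :=
    { toFun := fun x => (x.1 + x.2.2, x.2.1 - x.1, -x.2.1)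
      invFun := fun x => (-(x.2.1 + x.2.2), -x.2.2, x.1 + x.2.1 + x.2.2)
      left_inv := fun x => by ext <;> simp <;> ring
      right_inv := fun x => by ext <;> simp <;> ring
      map_add' := fun x y => by ext <;> simp <;> ring }
  refine ⟨ZMod m × ZMod m × ZMod m, inferInstance, inferInstance, φ, ψ, 0, fun x y => φ x + ψ y + 0, ?_,
    fun _ _ => rfl, ?_, ?_⟩
  · rw [Nat.card_prod, Nat.card_prod, Nat.card_zmod]
    ring
  · intro x
    have hφ : ∀ z, φ z = (-z.2.2, z.1, z.2.1 + z.2.2) := fun _ => rfl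
    have hψ : ∀ z, ψ z = (z.1 + z.2.2, z.2.1 - z.1, -z.2.1) := fun _ => rfl
    ext <;> simp [hφ, hψ]
  · intro x y
    have hφ : ∀ z, φ z = (-z.2.2, z.1, z.2.1 + z.2.2) := fun _ => rfl
    have hψ : ∀ z, ψ z = (z.1 + z.2.2, z.2.1 - z.1, -z.2.1) := fun _ => rfl
    ext <;> simp [hφ, hψ] <;> ring

theorem iprime {p : ℕ} (hp : p.Prime) {a : ZMod p} (ha : a ^ 3 - a ^ 2 + 1 = 0) : IdempotentAffineModel p := by
  have : Fact p.Prime := ⟨hp⟩
  have hab : a ^ 2 * (1 - a) = 1 := by linear_combination -ha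
  have ha0 : a ≠ 0 := by
    rintro rfl
    simp at hab
  have hb0 : 1 - a ≠ 0 := by
    intro h
    rw [h, mul_zero] at hab
    exact zero_ne_one hab
  refine ⟨ZMod p, inferInstance, inferInstance, AddAut.mulLeft (Units.mk0 a ha0),
    AddAut.mulLeft (Units.mk0 (1 - a) hb0), 0, fun x y => a * x + (1 - a) * y, Nat.card_zmod p, ?_, ?_, ?_⟩
  · intro x y
    simp [Units.smul_def]
  · intro x
    ring
  · intro x y
    linear_combination (x - y) * hab

theorem iof_good : ∀ v : ℕ, 0 < v → IdempotentGood v → IdempotentAffineModel v := by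
  intro v
  induction v using Nat.recOnPosPrimePosCoprime with
  | prime_pow p n hp hn =>
    intro _ h
    by_cases hr : ∀ a : ZMod p, a ^ 3 - a ^ 2 + 1 ≠ 0
    · have h1 := h p hp hr
      rw [hp.factorization_pow, Finsupp.single_eq_same] at h1
      obtain ⟨j, rfl⟩ := h1
      have := icube (p ^ j) (pow_pos hp.pos j)
      rwa [← pow_mul, mul_comm] at this
    · push Not at hr
      obtain ⟨a, ha⟩ := hr
      exact ipow (iprime hp ha) n
  | zero => exact fun h => absurd h (lt_irrefl _)
  | one => exact fun _ _ => ione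
  | coprime a b ha hb hab iha ihb =>
    intro _ h
    have hmul : ∀ p, (a * b).factorization p = a.factorization p + b.factorization p := fun p => by
      rw [Nat.factorization_mul (by omega) (by omega)]; rfl
    refine iprod (iha (by omega) fun p hp hr => ?_) (ihb (by omega) fun p hp hr => ?_)
    · by_cases hd : p ∣ a
      · have h1 := h p hp hr
        have h2 : ¬ p ∣ b := fun hdb => hp.one_lt.ne' (Nat.eq_one_of_dvd_coprimes hab hd hdb)
        rwa [hmul, Nat.factorization_eq_zero_of_not_dvd h2, add_zero] at h1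
      · rw [Nat.factorization_eq_zero_of_not_dvd hd]
        exact dvd_zero 3
    · by_cases hd : p ∣ b
      · have h1 := h p hp hr
        have h2 : ¬ p ∣ a := fun hda => hp.one_lt.ne' (Nat.eq_one_of_dvd_coprimes hab hda hd)
        rwa [hmul, Nat.factorization_eq_zero_of_not_dvd h2, zero_add] at h1
      · rw [Nat.factorization_eq_zero_of_not_dvd hd]
        exact dvd_zero 3

theorem igood_of {v : ℕ} (h : IdempotentAffineModel v) : IdempotentGood v := by
  obtain ⟨A, _, _, φ, ψ, c, m, hA, hm, hi, hE⟩ := h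
  intro p hp hr
  have : Fact p.Prime := ⟨hp⟩
  have hc : c = 0 := by
    have := hi 0
    rwa [hm, map_zero, map_zero, zero_add, zero_add] at this
  subst hc
  have hψ : ∀ x, ψ x = x - φ x := by
    intro x
    have := hi x
    rw [hm, add_zero] at this
    exact eq_sub_of_add_eq' this
  refine three_dvd hr v A (φ : A →+ A) (fun x => ?_) hA
  have h1 := hE x 0
  rw [hm, hm, hm] at h1
  have h2 : φ (φ x) - φ (φ (φ x)) = x := by simpa [hψ] using h1
  change φ (φ (φ x)) - φ (φ x) + x = 0
  calc φ (φ (φ x)) - φ (φ x) + x = x - (φ (φ x) - φ (φ (φ x))) := by abel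
    _ = 0 := by rw [h2, sub_self]

theorem imodel_of {v : ℕ} (h : IdempotentAffineModel v) : IdempotentModel v := by
  obtain ⟨A, _, _, φ, ψ, c, m, hA, hm, hi, hE⟩ := h
  let e : A ≃ Fin v := Finite.equivFinOfCardEq hA
  refine ⟨fun i j => e (m (e.symm i) (e.symm j)), fun a => ?_, fun b => ?_, fun x => ?_, fun x y => ?_⟩
  · have : (fun j => e (m (e.symm a) (e.symm j))) =
        e ∘ (fun y => φ (e.symm a) + ψ y + c) ∘ e.symm := by
      funext j; simp [hm]
    change Function.Bijective (fun j => e (m (e.symm a) (e.symm j)))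
    rw [this]
    refine e.bijective.comp (Function.Bijective.comp ?_ e.symm.bijective)
    exact (Equiv.addRight c).bijective.comp ((Equiv.addLeft (φ (e.symm a))).bijective.comp ψ.bijective)
  · have : (fun i => e (m (e.symm i) (e.symm b))) =
        e ∘ (fun x => φ x + ψ (e.symm b) + c) ∘ e.symm := by
      funext j; simp [hm]
    rw [this]
    refine e.bijective.comp (Function.Bijective.comp ?_ e.symm.bijective)
    exact (Equiv.addRight c).bijective.comp ((Equiv.addRight (ψ (e.symm b))).bijective.comp φ.bijective)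
  · simp [hi]
  · simp [hE]

/-- **The affine spectra of `((yx)y)y = x`**, in general and for idempotent quasigroups, and the resulting parts of the
two spectra. -/
theorem result : ∀ v : ℕ, 0 < v →
    (AffineModel v ↔ Good v) ∧ (Good v → Model v) ∧
    (IdempotentAffineModel v ↔ IdempotentGood v) ∧ (IdempotentGood v → IdempotentModel v) :=
  fun v hv => ⟨⟨good_of, of_good v hv⟩, fun h => model_of (of_good v hv h), ⟨igood_of, iof_good v hv⟩,
    fun h => imodel_of (iof_good v hv h)⟩

end Pool.Agent.Results.MP_0d0fd2_co.AffineSpectrum
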